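import Pool.Agent.Helper14.RG.Cls.Fac3

/-!
# MP_005e41_ag: `G / G^σ` is rational for `G` of type `A` and `σ` of finite order

`k` is an algebraically closed field of characteristic `0` and `G` is the quotient of
`∏ SL_{n i}(k)` by any subgroup of its centre (the quotient map is `π`): these are the connected
semisimple groups all of whose simple factors are of type `A`, in every isogeny class.  The
automorphism `σ` is any automorphism of finite order of the algebraic group `G`.
-/

namespace Pool.Agent.Results.MP_005e41_ag.TypeAIntrinsic

open Pool.Agent.Helper14.RG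

/-- The simply connected group `∏ SL_{n i}(k)`. -/
abbrev SCA (k : Type*) [Field k] {ι : Type*} (n : ι → ℕ) : Type _ :=
  ∀ i, Matrix.SpecialLinearGroup (Fin (n i)) k

/-- The regular functions on the quotient group `G` of `∏ SL_{n i}(k)`, with quotient map `π`: the
functions whose pullback to `∏ SL_{n i}(k)` is a polynomial in the matrix entries. -/
def Reg {k : Type*} [Field k] {ι : Type*} {n : ι → ℕ} {G : Type*} (π : SCA k n → G) :
    Set (G → k) :=
  {f | f ∘ π ∈ Algebra.adjoin k {e : SCA k n → k | ∃ (i : ι) (a b : Fin (n i)),
    e = fun g => (g i : Matrix (Fin (n i)) (Fin (n i)) k) a b}}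

/-- Let `G = (∏ SL_{n i}(k)) / Z` with `Z = ker π` central, and `σ` an automorphism of the algebraic
group `G` of finite order: a group automorphism such that `f ∘ σ` is regular for every regular
function `f`.  Then the field `k(G)^{G^σ} = k(G/G^σ)` is purely transcendental over `k`. -/
theorem result {k : Type*} [Field k] [IsAlgClosed k] [CharZero k] {ι : Type*} [Fintype ι]
    [DecidableEq ι] {n : ι → ℕ} {G : Type*} [Group G] (π : SCA k n →* G)
    (hπ : Function.Surjective π) (hker : π.ker ≤ Subgroup.center (SCA k n))
    (σ : G ≃* G) (hreg : ∀ f ∈ Reg π, f ∘ σ ∈ Reg π) (M : ℕ) (hM : 0 < M)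
    (hfin : ∀ x, σ^[M] x = x) : RationalQuotient (Reg π) (fixSub σ) :=
  intrinsic π hπ hker σ hreg M hM hfin

end Pool.Agent.Results.MP_005e41_ag.TypeAIntrinsic
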